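import Pool.Agent.H371.SB.U12

/-!
The strong Atiyah conjecture (coefficients in `ℂ`) for the automorphism groups of free groups and
of their residually torsion-free nilpotent characteristic quotients, and explicit denominators for
all groups of automorphisms of residually torsion-free nilpotent groups with free abelianization
of finite rank.
-/

set_option autoImplicit false
open Classical

namespace Pool.Agent.Results.MP_54e5d7_al.AutFree

/-- The von Neumann dimension of the kernel of right multiplication by `A` on `ℓ²(G)^m`, by the
formula of the frozen statement S01499: the sum over `i` of `1 - dist(δ_(i,1), kernel)²`. -/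
noncomputable def kdim {G : Type} [Group G] {m n : ℕ} (A : Matrix (Fin m) (Fin n) (G →₀ ℂ)) : ℝ :=
  ∑ i : Fin m,
    (1 - (Metric.infDist
      (lp.single 2 (i, (1 : G)) (1 : ℂ) : lp (fun _ : Fin m × G => ℂ) 2)
      {x : lp (fun _ : Fin m × G => ℂ) 2 | ∀ (j : Fin n) (g : G),
        ∑ i' : Fin m, (A i' j).sum (fun h c => x (i', g * h⁻¹) * c) = 0}) ^ 2)

/-- Residually torsion-free nilpotent groups. -/
def RTFN (N : Type) [Group N] : Prop :=
  ∀ x : N, x ≠ 1 → ∃ (L : Subgroup N) (_ : L.Normal), x ∉ L ∧ Group.IsNilpotent (N ⧸ L) ∧
    ∀ (y : N ⧸ L) (m : ℕ), m ≠ 0 → y ^ m = 1 → y = 1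

/-- `d` is a positive common multiple of the orders of the finite subgroups of `G`. -/
def Common (G : Type) [Group G] (d : ℕ) : Prop :=
  0 < d ∧ ∀ H : Subgroup G, Finite H → Nat.card H ∣ d

/-- `d` is a positive multiple of Minkowski's number, the least common multiple over the primes
`p` of the numbers `p ^ k * k!` with `k = ⌊n / (p - 1)⌋`. -/
def Minkowski (n d : ℕ) : Prop :=
  0 < d ∧ ∀ p : ℕ, p.Prime → p ^ (n / (p - 1)) * (n / (p - 1)).factorial ∣ d

/-- The pairs `(G, d)` covered by the theorem. -/
inductive Den : (G : Type) → [Group G] → ℕ → Prop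
  /-- the automorphism group of a free group, with any common multiple of the orders of its
  finite subgroups -/
  | aut (n d : ℕ) (hd : Common (MulAut (FreeGroup (Fin n))) d) :
      Den (MulAut (FreeGroup (Fin n))) d
  /-- the automorphism group of a residually torsion-free nilpotent characteristic quotient with
  the same abelianization, with any common multiple of the orders of its finite subgroups -/
  | quo (n d : ℕ) (V : Subgroup (FreeGroup (Fin n))) [V.Characteristic]
      (hV : V ≤ commutator (FreeGroup (Fin n))) (hN : RTFN (FreeGroup (Fin n) ⧸ V))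
      (hd : Common (MulAut (FreeGroup (Fin n) ⧸ V)) d) :
      Den (MulAut (FreeGroup (Fin n) ⧸ V)) d
  /-- any group acting faithfully on a residually torsion-free nilpotent group with abelianization
  `ℤ ^ n`, with any multiple of Minkowski's number for `n` -/
  | act (N : Type) [Group N] (n d : ℕ) (e : Abelianization N ≃* Multiplicative (Fin n → ℤ))
      (hN : RTFN N) (G : Type) [Group G] (α : G →* MulAut N) (hα : Function.Injective α)
      (hd : Minkowski n d) : Den G d
  /-- subgroups -/
  | sub (G H : Type) [Group G] [Group H] (d : ℕ) (f : H →* G) (hf : Function.Injective f)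
      (hG : Den G d) : Den H d
  /-- direct products -/
  | prod (G H : Type) [Group G] [Group H] (d e : ℕ) (hG : Den G d) (hH : Den H e) :
      Den (G × H) (d * e)
  /-- free products with free groups -/
  | free (G : Type) [Group G] (d m : ℕ) (hG : Den G d) :
      Den (Monoid.Coprod G (FreeGroup (Fin m))) d

open Pool.Agent.H371.SB in
theorem cr {G : Type} [Group G] {d : ℕ} (h : Den G d) : CR G d := by
  induction h with
  | aut n d hd =>
    exact CR.of_local hd.1 (fun p hp => have : Fact p.Prime := ⟨hp⟩; cc_dvd_aut p n d hd.2)
      fun p _ => GR.aut p (eF n) (free_rtfn n) (MonoidHom.id _) fun _ _ h => h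
  | quo n d V hV hN hd =>
    exact CR.of_local hd.1 (fun p hp => have : Fact p.Prime := ⟨hp⟩; cc_dvd_quo p n V hV d hd.2)
      fun p _ => GR.aut p ((abQuo V hV).symm.trans (eF n)) hN (MonoidHom.id _) fun _ _ h => h
  | act N n d e hN G α hα hd =>
    exact CR.of_local hd.1 hd.2 fun p _ => GR.aut p e hN α hα
  | sub G H d f hf hG ih => exact CR.sub f hf ih
  | prod G H d e hG hH ih ih' => exact CR.prod ih ih'
  | free G d m hG ih => exact CR.free m ih

/-- For every pair `(G, d)` of the class above and every matrix `A` over `ℂ[G]`, the number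
`d * dim ker A` is an integer. -/
theorem result : ∀ (G : Type) [Group G] (d : ℕ), Den G d →
    ∀ (m n : ℕ) (A : Matrix (Fin m) (Fin n) (G →₀ ℂ)), ∃ z : ℤ, (d : ℝ) * kdim A = z := by
  intro G _ d hG m n A
  exact (cr hG).kd_int m n A

end Pool.Agent.Results.MP_54e5d7_al.AutFree
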