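import Pool.Agent.H371.SC.V7
import Pool.Agent.H371.SC.T10
import Pool.Agent.H371.SC.T11
import Pool.Agent.H371.SC.T12

/-!
The strong Atiyah conjecture (coefficients in `ℂ`) for general linear groups over rings of
cyclotomic integers, over polynomial, power series and free algebras over them, and over their
group rings of residually torsion-free nilpotent groups.
-/

set_option autoImplicit false
open Classical

namespace Pool.Agent.Results.MP_54e5d7_al.GLRings

/-- The von Neumann dimension of the kernel of right multiplication by `A` on `ℓ²(G)^m`, by the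
formula of the frozen statement S01499: the sum over `i` of `1 - dist(δ_(i,1), kernel)²`. -/
noncomputable def kdim {G : Type} [Group G] {m n : ℕ} (A : Matrix (Fin m) (Fin n) (G →₀ ℂ)) : ℝ :=
  ∑ i : Fin m,
    (1 - (Metric.infDist
      (lp.single 2 (i, (1 : G)) (1 : ℂ) : lp (fun _ : Fin m × G => ℂ) 2)
      {x : lp (fun _ : Fin m × G => ℂ) 2 | ∀ (j : Fin n) (g : G),
        ∑ i' : Fin m, (A i' j).sum (fun h c => x (i', g * h⁻¹) * c) = 0}) ^ 2)

/-- The ring `ℤ[ζ]`. -/
noncomputable abbrev Cyc (ζ : ℂ) : Type := Algebra.adjoin ℤ ({ζ} : Set ℂ)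

/-- The general linear group of degree `n` over `R`. -/
abbrev GLn (n : ℕ) (R : Type) [Ring R] : Type := (Matrix (Fin n) (Fin n) R)ˣ

/-- Residually torsion-free nilpotent groups. -/
def RTFN (N : Type) [Group N] : Prop :=
  ∀ x : N, x ≠ 1 → ∃ (L : Subgroup N) (_ : L.Normal), x ∉ L ∧ Group.IsNilpotent (N ⧸ L) ∧
    ∀ (y : N ⧸ L) (m : ℕ), m ≠ 0 → y ^ m = 1 → y = 1

/-- The elements of the `C`-algebra `R` are separated by homomorphisms to matrix algebras over `C`
which map all products of `K` elements of augmentation `0`, for some `K`, to `0`. -/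
def Residual {C R : Type} [CommRing C] [Ring R] [Algebra C R] (ε : R →ₐ[C] C) : Prop :=
  ∀ r : R, r ≠ 0 → ∃ (k K : ℕ) (π : R →ₐ[C] Matrix (Fin k) (Fin k) C),
    (∀ l : List R, l.length = K → (∀ x ∈ l, ε x = 0) → π l.prod = 0) ∧ π r ≠ 0

/-- `d` is a positive common multiple of the orders of the finite subgroups of `G`. -/
def Common (G : Type) [Group G] (d : ℕ) : Prop :=
  0 < d ∧ ∀ H : Subgroup G, Finite H → Nat.card H ∣ d

/-- `d` is a positive integer divisible, for every prime `p` which does not divide `m`, by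
`p ^ k * k!` with `k = ⌊n / (p - 1)⌋`, and for every prime `p` which divides `m`, by
`p ^ (a * n) * (p ^ k * k!)` with `k = ⌊n / p⌋`, where `p ^ a` is the exact power of `p` which
divides `m`. -/
def Schur (m n d : ℕ) : Prop :=
  0 < d ∧ ∀ p : ℕ, p.Prime →
    (if p ∣ m then p ^ (m.factorization p * n) * (p ^ (n / p) * (n / p).factorial)
      else p ^ (n / (p - 1)) * (n / (p - 1)).factorial) ∣ d

/-- The pairs `(G, d)` covered by the theorem. -/
inductive Den : (G : Type) → [Group G] → ℕ → Prop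
  /-- the general linear groups over `ℤ[ζ]`, `ζ` a primitive `m`-th root of unity, with any common
  multiple of the orders of the finite subgroups -/
  | cyc (m : ℕ) (hm : 0 < m) (ζ : ℂ) (hζ : IsPrimitiveRoot ζ m) (n d : ℕ)
      (hd : Common (GLn n (Cyc ζ)) d) : Den (GLn n (Cyc ζ)) d
  /-- the same over polynomial rings over `ℤ[ζ]`, in any set of variables -/
  | poly (m : ℕ) (hm : 0 < m) (ζ : ℂ) (hζ : IsPrimitiveRoot ζ m) (σ : Type) (n d : ℕ)
      (hd : Common (GLn n (MvPolynomial σ (Cyc ζ))) d) : Den (GLn n (MvPolynomial σ (Cyc ζ))) d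
  /-- the same over free associative algebras over `ℤ[ζ]` -/
  | freeAlg (m : ℕ) (hm : 0 < m) (ζ : ℂ) (hζ : IsPrimitiveRoot ζ m) (σ : Type) (n d : ℕ)
      (hd : Common (GLn n (FreeAlgebra (Cyc ζ) σ)) d) : Den (GLn n (FreeAlgebra (Cyc ζ) σ)) d
  /-- the same over power series rings over `ℤ[ζ]` -/
  | series (m : ℕ) (hm : 0 < m) (ζ : ℂ) (hζ : IsPrimitiveRoot ζ m) (k n d : ℕ)
      (hd : Common (GLn n (MvPowerSeries (Fin k) (Cyc ζ))) d) :
      Den (GLn n (MvPowerSeries (Fin k) (Cyc ζ))) d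
  /-- the same over the group rings over `ℤ[ζ]` of finitely generated residually torsion-free
  nilpotent groups -/
  | groupRing (m : ℕ) (hm : 0 < m) (ζ : ℂ) (hζ : IsPrimitiveRoot ζ m) (N : Type) [Group N]
      [Group.FG N] (hN : RTFN N) (n d : ℕ) (hd : Common (GLn n (MonoidAlgebra (Cyc ζ) N)) d) :
      Den (GLn n (MonoidAlgebra (Cyc ζ) N)) d
  /-- the same over every `ℤ[ζ]`-algebra with a residual augmentation -/
  | aug (m : ℕ) (hm : 0 < m) (ζ : ℂ) (hζ : IsPrimitiveRoot ζ m) (R : Type) [Ring R]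
      [Algebra (Cyc ζ) R] (ε : R →ₐ[Cyc ζ] Cyc ζ) (hR : Residual ε) (n d : ℕ)
      (hd : Common (GLn n R) d) : Den (GLn n R) d
  /-- all groups which embed in such a general linear group, with explicit denominators -/
  | emb (m : ℕ) (hm : 0 < m) (ζ : ℂ) (hζ : IsPrimitiveRoot ζ m) (R : Type) [Ring R]
      [Algebra (Cyc ζ) R] (ε : R →ₐ[Cyc ζ] Cyc ζ) (hR : Residual ε) (n d : ℕ) (G : Type) [Group G]
      (f : G →* GLn n R) (hf : Function.Injective f) (hd : Schur m n d) : Den G d
  /-- subgroups -/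
  | sub (G H : Type) [Group G] [Group H] (d : ℕ) (f : H →* G) (hf : Function.Injective f)
      (hG : Den G d) : Den H d
  /-- direct products -/
  | prod (G H : Type) [Group G] [Group H] (d e : ℕ) (hG : Den G d) (hH : Den H e) :
      Den (G × H) (d * e)
  /-- free products with free groups -/
  | free (G : Type) [Group G] (d k : ℕ) (hG : Den G d) :
      Den (Monoid.Coprod G (FreeGroup (Fin k))) d

open Pool.Agent.H371.SC in
theorem res_id (C : Type) [CommRing C] : Res (AlgHom.id C C) := by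
  intro r hr
  refine ⟨1, 1, Algebra.ofId C (Matrix (Fin 1) (Fin 1) C), ?_, ?_⟩
  · intro l hl h
    obtain ⟨x, rfl⟩ := List.length_eq_one_iff.1 hl
    have : x = 0 := h x (by simp)
    rw [this]
    simp
  · intro h
    apply hr
    have := congrFun (congrFun h 0) 0
    rwa [Algebra.ofId_apply, Matrix.algebraMap_matrix_apply] at this

open Pool.Agent.H371.SC in
theorem cr {G : Type} [Group G] {d : ℕ} (h : Den G d) : CRX G d := by
  induction h with
  | cyc m hm ζ hζ n d hd =>
    exact CRX.of_CRO (CRO.gl m hm ζ hζ (Cyc ζ) (AlgHom.id _ _) (res_id _) n d hd.1 hd.2)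
  | poly m hm ζ hζ σ n d hd =>
    exact CRX.of_CRO (CRO.gl m hm ζ hζ _ _ (res_mv_polynomial (Cyc ζ) σ) n d hd.1 hd.2)
  | freeAlg m hm ζ hζ σ n d hd =>
    exact CRX.of_CRO (CRO.gl m hm ζ hζ _ _ (res_free_algebra (Cyc ζ) σ) n d hd.1 hd.2)
  | series m hm ζ hζ k n d hd =>
    let ε : MvPowerSeries (Fin k) (Cyc ζ) →ₐ[Cyc ζ] Cyc ζ :=
      { (MvPowerSeries.constantCoeff : MvPowerSeries (Fin k) (Cyc ζ) →+* Cyc ζ) with
        commutes' := fun c => by
          simp [MvPowerSeries.algebraMap_apply] }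
    exact CRX.of_CRO (CRO.gl m hm ζ hζ _ ε (res_power_series (Cyc ζ) k ε fun _ => rfl) n d
      hd.1 hd.2)
  | groupRing m hm ζ hζ N hN n d hd =>
    exact CRX.of_CRO (CRO.gl m hm ζ hζ _ _ (res_group_ring (Cyc ζ) N hN) n d hd.1 hd.2)
  | aug m hm ζ hζ R ε hR n d hd =>
    exact CRX.of_CRO (CRO.gl m hm ζ hζ R ε hR n d hd.1 hd.2)
  | emb m hm ζ hζ R ε hR n d G f hf hd =>
    refine CRX.of_CRO (m := m) (hm := hm) ⟨hd.1, fun p hp => ⟨cO p m n, ?_, 1,
      hp.out.one_lt.ne' ∘ Nat.dvd_one.1, ?_⟩⟩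
    · have : CharZero (loc m hm p).O :=
        charZero_of_injective_algebraMap (FaithfulSMul.algebraMap_injective ℤ_[p] _)
      obtain ⟨ι, hι, -⟩ :=
        exists_embedding m hm ζ hζ (loc m hm p).O (loc m hm p).ζ (loc m hm p).hζ
      exact GRO.sub _ p _ _ _ f hf
        (GRO.gl p _ n _ ((loc m hm p).hf n) (Cy ζ) R ε hR ι hι)
    · rw [one_mul]
      have := hd.2 p hp.out
      rw [cO]
      rwa [pow_mul] at this
  | sub G H d f hf hG ih => exact CRX.sub f hf ih
  | prod G H d e hG hH ih ih' => exact CRX.prod ih ih'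
  | free G d m hG ih => exact CRX.free m ih

/-- For every pair `(G, d)` of the class above and every matrix `A` over `ℂ[G]`, the number
`d * dim ker A` is an integer. -/
theorem result : ∀ (G : Type) [Group G] (d : ℕ), Den G d →
    ∀ (m n : ℕ) (A : Matrix (Fin m) (Fin n) (G →₀ ℂ)), ∃ z : ℤ, (d : ℝ) * kdim A = z := by
  intro G _ d hG m n A
  exact (cr hG).kd_int m n A

end Pool.Agent.Results.MP_54e5d7_al.GLRings
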