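import Pool.Agent.H320.CF.Asm

/-!
The strong Atiyah conjecture, with coefficients in `ℂ` and the exact least common multiple, for
`GL_n (K)`, for all `n` and all fields `K` of characteristic zero which contain a square root of
`-1` (or `ζ - ζ⁻¹` for a root of unity `ζ` of order `2 ^ e`, `e ≥ 2`), up to the factor
`2 ^ ⌊n / 2⌋` for all fields of characteristic zero, and for the general linear groups over all
rings between the algebraic integers of `K` and the group ring over `K` of a residually
torsion-free nilpotent group.

For a finitely generated subgroup `H` and each prime `l` we choose a large prime `p` such that the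
ring generated by the entries of `H` embeds in `ℤ_p` and the `l`-part of the order of `GL_n (𝔽_p)` is
as small as possible; it is then the `l`-part of the orders of the finite subgroups of `GL_n (K)`.
The primes come from Chebotarev's density theorem for a specialisation of a Galois extension of a
rational function field over `ℚ` (Hilbert's irreducibility theorem), the embeddings from Hensel's
lemma. Integrality over `ℤ[H]` up to this factor follows from the theory of completed group rings
of torsion-free pro-`p` groups, and passes to `ℂ[H]` by base change.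
-/

set_option autoImplicit false
open Classical

namespace Pool.Agent.Results.MP_54e5d7_al.LinearGroups

/-- The von Neumann dimension of the kernel of right multiplication by `A` on `ℓ²(G)^m`, by the
formula of the frozen statement S01499: the sum over `i` of `1 - dist(δ_(i,1), kernel)²`. -/
noncomputable def kdim {G : Type} [Group G] {m n : ℕ} (A : Matrix (Fin m) (Fin n) (G →₀ ℂ)) : ℝ :=
  ∑ i : Fin m,
    (1 - (Metric.infDist
      (lp.single 2 (i, (1 : G)) (1 : ℂ) : lp (fun _ : Fin m × G => ℂ) 2)
      {x : lp (fun _ : Fin m × G => ℂ) 2 | ∀ (j : Fin n) (g : G),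
        ∑ i' : Fin m, (A i' j).sum (fun h c => x (i', g * h⁻¹) * c) = 0}) ^ 2)

/-- The general linear group of degree `n` over `R`. -/
abbrev GLn (n : ℕ) (R : Type) [Ring R] : Type := (Matrix (Fin n) (Fin n) R)ˣ

/-- Residually torsion-free nilpotent groups. -/
def RTFN (N : Type) [Group N] : Prop :=
  ∀ x : N, x ≠ 1 → ∃ (L : Subgroup N) (_ : L.Normal), x ∉ L ∧ Group.IsNilpotent (N ⧸ L) ∧
    ∀ (y : N ⧸ L) (m : ℕ), m ≠ 0 → y ^ m = 1 → y = 1

/-- `d` is a positive common multiple of the orders of the finite subgroups of `G`. -/
def Common (G : Type) [Group G] (d : ℕ) : Prop :=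
  0 < d ∧ ∀ H : Subgroup G, Finite H → Nat.card H ∣ d

/-- `K` contains `ζ - ζ⁻¹` for a root of unity `ζ` of order `2 ^ e`, `e ≥ 2`, in an algebraic
closure, for example (`e = 2, 3`) a square root of `-1` or of `-2`. -/
def Imag (K : Type) [Field K] : Prop := ∃ (e : ℕ) (_ : 2 ≤ e) (ζ : AlgebraicClosure K) (z : K),
  IsPrimitiveRoot ζ (2 ^ e) ∧ ζ - ζ⁻¹ = algebraMap K (AlgebraicClosure K) z

/-- The extra factor at the prime two: `1` in the 2-adic case (`adic = true`) and if `K` satisfies
`Imag`, and `2 ^ ⌊n / 2⌋` otherwise. -/
noncomputable def extra (K : Type) [Field K] (adic : Bool) (n : ℕ) : ℕ :=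
  if adic = true ∨ Imag K then 1 else 2 ^ (n / 2)

/-- In the 2-adic case the ring of coefficients `C` embeds in the 2-adic integers. -/
def Coef {K : Type} [Field K] (adic : Bool) (C : Subring K) : Prop :=
  adic = true → ∃ f : C →+* ℤ_[2], Function.Injective f

/-- The elements of the `C`-algebra `R` are separated by homomorphisms to matrix algebras over `C`
which map all products of `k'` elements of augmentation `0`, for some `k'`, to `0`. -/
def Residual {C R : Type} [CommRing C] [Ring R] [Algebra C R] (ε : R →ₐ[C] C) : Prop :=
  ∀ r : R, r ≠ 0 → ∃ (k k' : ℕ) (π : R →ₐ[C] Matrix (Fin k) (Fin k) C),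
    (∀ l : List R, l.length = k' → (∀ x ∈ l, ε x = 0) → π l.prod = 0) ∧ π r ≠ 0

/-- `R` is an algebra with a residual augmentation over a finitely generated subring `C` of
`K`, for example `C` itself or a power series ring or free algebra in finitely many variables. -/
def Augmented (K : Type) [Field K] (adic : Bool) (R : Type) [Ring R] : Prop :=
  ∃ (C : Subring K) (_ : Algebra C R) (ε : R →ₐ[C] C),
    (∃ T : Finset K, C = Subring.closure (T : Set K)) ∧ Coef adic C ∧ Residual ε

/-- The pairs `(G, d)` covered by the theorem, for a field `K`. The ring `integralClosure ℤ K`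
consists of the algebraic integers in `K`. -/
inductive Den (K : Type) [Field K] (adic : Bool) : (G : Type) → [Group G] → ℕ → Prop
  /-- `S` contains the algebraic integers of `K` and embeds in the group ring over a subring `C` of
  `K` of a residually torsion-free nilpotent group -/
  | groupRing (C : Subring K) (hC : Coef adic C) (N : Type) [Group N] (hN : RTFN N)
      (S : Type) [Ring S] (j : integralClosure ℤ K →+* S) (hj : Function.Injective j)
      (i : S →+* MonoidAlgebra C N) (hi : Function.Injective i) (n d : ℕ)
      (hd : Common (GLn n S) d) : Den K adic (GLn n S) (extra K adic n * d)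
  /-- `S` contains the algebraic integers of `K` and all its finitely generated subrings embed in
  augmented algebras -/
  | locally (S : Type) [Ring S] (j : integralClosure ℤ K →+* S) (hj : Function.Injective j)
      (hS : ∀ T : Finset S, ∃ (R : Type) (_ : Ring R), Augmented K adic R ∧
        ∃ i : Subring.closure (T : Set S) →+* R, Function.Injective i) (n d : ℕ)
      (hd : Common (GLn n S) d) : Den K adic (GLn n S) (extra K adic n * d)
  /-- all finitely generated subgroups of `G` embed in `GL_n` of an augmented algebra, and `d` is
  a common multiple for `GL_n` over the algebraic integers of `K` -/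
  | linear (n d : ℕ) (hd : Common (GLn n (integralClosure ℤ K)) d) (G : Type) [Group G]
      (hG : ∀ H : Subgroup G, H.FG → ∃ (R : Type) (_ : Ring R), Augmented K adic R ∧
        ∃ f : H →* GLn n R, Function.Injective f) : Den K adic G (extra K adic n * d)
  /-- subgroups -/
  | sub (G H : Type) [Group G] [Group H] (d : ℕ) (f : H →* G) (hf : Function.Injective f)
      (hG : Den K adic G d) : Den K adic H d
  /-- direct products -/
  | prod (G H : Type) [Group G] [Group H] (d e : ℕ) (hG : Den K adic G d)
      (hH : Den K adic H e) : Den K adic (G × H) (d * e)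
  /-- free products with free groups -/
  | free (G : Type) [Group G] (d k : ℕ) (hG : Den K adic G d) :
      Den K adic (Monoid.Coprod G (FreeGroup (Fin k))) d

open Pool.Agent.H320.CF in
theorem extra_eq (K : Type) [Field K] (adic : Bool) (n : ℕ) : extra K adic n = fc K adic n := rfl

open Pool.Agent.H320.CF in
theorem of_locAug {K : Type} [Field K] [CharZero K] {adic : Bool} {S : Type} [Ring S]
    (j : integralClosure ℤ K →+* S) (hj : Function.Injective j) (hS : LocAugK K adic S) {n d : ℕ}
    (hd : Common (GLn n S) d) : UK K adic (GLn n S) (extra K adic n * d) :=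
  of_loc hd.1 (finDvd_of j hj hd.2) (emb_of_locAugK hS n)

open Pool.Agent.H320.CF in
theorem cr {K : Type} [Field K] [CharZero K] {adic : Bool} {G : Type} [Group G] {d : ℕ}
    (h : Den K adic G d) : UK K adic G d := by
  induction h with
  | groupRing C hC N hN S j hj i hi n d hd =>
    exact of_locAug j hj (locAugK_group C hC hN i hi) hd
  | locally S j hj hS n d hd => exact of_locAug j hj hS hd
  | linear n d hd G hG => exact of_loc hd.1 hd.2 hG
  | sub G H d f hf hG ih => exact UK.sub f hf ih
  | prod G H d e hG hH ih ih' => exact UK.prod ih ih'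
  | free G d k hG ih => exact UK.free k ih

open Pool.Agent.H320.CF in
theorem int_of {K : Type} [Field K] [CharZero K] {adic : Bool} {G : Type} [Group G] {d : ℕ}
    (h : UK K adic G d) (k m : ℕ) (A : Matrix (Fin k) (Fin m) (G →₀ ℂ)) :
    ∃ z : ℤ, (d : ℝ) * kdim A = z :=
  Pool.Agent.H320.PG.kd_int_of (fun v hv => h.int v hv) k m A

open Pool.Agent.H320.CF in
/-- Let `K` be a field of characteristic zero.

(1) Let `d` be a positive common multiple of the orders of the finite subgroups of `GL_n (K)` and
`A` a matrix over `ℂ[GL_n (K)]`. Then `2 ^ ⌊n / 2⌋ * d * dim ker A` is an integer, and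
`d * dim ker A` is an integer if `K` contains a square root of `-1`, or more generally
`ζ - ζ⁻¹` for a root of unity `ζ` of order `2 ^ e`, `e ≥ 2`.

(2) `d * dim ker A` is an integer for every pair `(G, d)` of the class above and every matrix `A`
over `ℂ[G]`. -/
theorem result : ∀ (K : Type) [Field K] [CharZero K],
    (∀ n d : ℕ, Common (GLn n K) d → ∀ (k m : ℕ) (A : Matrix (Fin k) (Fin m) (GLn n K →₀ ℂ)),
      (∃ z : ℤ, (2 : ℝ) ^ (n / 2) * d * kdim A = z) ∧
        (Imag K → ∃ z : ℤ, (d : ℝ) * kdim A = z)) ∧
    (∀ (adic : Bool) (G : Type) [Group G] (d : ℕ), Den K adic G d →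
      ∀ (k m : ℕ) (A : Matrix (Fin k) (Fin m) (G →₀ ℂ)), ∃ z : ℤ, (d : ℝ) * kdim A = z) := by
  intro K _ _
  refine ⟨fun n d hd k m A => ?_, fun adic G _ d hG k m A => ?_⟩
  · have h1 : UK K false (GLn n K) (extra K false n * d) :=
      of_locAug (algebraMap (integralClosure ℤ K) K) Subtype.val_injective (locAugK_self K) hd
    obtain ⟨z, hz⟩ := int_of h1 k m A
    by_cases hI : Imag K
    · have h3 : extra K false n = 1 := by
        unfold extra
        rw [if_pos (Or.inr hI)]
      rw [h3, one_mul] at hz
      refine ⟨⟨2 ^ (n / 2) * z, ?_⟩, fun _ => ⟨z, hz⟩⟩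
      rw [mul_assoc, hz]
      push_cast
      ring
    · have h3 : extra K false n = 2 ^ (n / 2) := by
        unfold extra
        rw [if_neg (by simp [hI])]
      rw [h3] at hz
      refine ⟨⟨z, ?_⟩, fun h => absurd h hI⟩
      rw [← hz]
      push_cast
      ring
  · exact int_of (cr hG) k m A

end Pool.Agent.Results.MP_54e5d7_al.LinearGroups
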