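import Pool.Agent.H371.SB.U12

/-!
The strong Atiyah conjecture (coefficients in `ℂ`) for the outer automorphism groups of free groups
of finite rank.
-/

set_option autoImplicit false
open Classical

namespace Pool.Agent.Results.MP_54e5d7_al.OutFree

/-- The von Neumann dimension of the kernel of right multiplication by `A` on `ℓ²(G)^m`, by the
formula of the frozen statement S01499: the sum over `i` of `1 - dist(δ_(i,1), kernel)²`. -/
noncomputable def kdim {G : Type} [Group G] {m n : ℕ} (A : Matrix (Fin m) (Fin n) (G →₀ ℂ)) : ℝ :=
  ∑ i : Fin m,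
    (1 - (Metric.infDist
      (lp.single 2 (i, (1 : G)) (1 : ℂ) : lp (fun _ : Fin m × G => ℂ) 2)
      {x : lp (fun _ : Fin m × G => ℂ) 2 | ∀ (j : Fin n) (g : G),
        ∑ i' : Fin m, (A i' j).sum (fun h c => x (i', g * h⁻¹) * c) = 0}) ^ 2)

/-- The inner automorphisms of the free group of rank `n`. -/
def Inn (n : ℕ) : Subgroup (MulAut (FreeGroup (Fin n))) :=
  (MulAut.conj : FreeGroup (Fin n) →* MulAut (FreeGroup (Fin n))).range

instance (n : ℕ) : (Inn n).Normal :=
  inferInstanceAs (Pool.Agent.H371.SB.innS (FreeGroup (Fin n))).Normal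

/-- The outer automorphism group of the free group of rank `n`. -/
abbrev Out (n : ℕ) : Type := MulAut (FreeGroup (Fin n)) ⧸ Inn n

/-- `d` is a positive common multiple of the orders of the finite subgroups of `G`. -/
def Common (G : Type) [Group G] (d : ℕ) : Prop :=
  0 < d ∧ ∀ H : Subgroup G, Finite H → Nat.card H ∣ d

/-- `d` is a positive multiple of Minkowski's number, the least common multiple over the primes
`p` of the numbers `p ^ k * k!` with `k = ⌊n / (p - 1)⌋`. -/
def Minkowski (n d : ℕ) : Prop :=
  0 < d ∧ ∀ p : ℕ, p.Prime → p ^ (n / (p - 1)) * (n / (p - 1)).factorial ∣ d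

/-- The pairs `(G, d)` covered by the theorem. -/
inductive Den : (G : Type) → [Group G] → ℕ → Prop
  /-- the outer automorphism group of a free group, with any common multiple of the orders of its
  finite subgroups -/
  | out (n d : ℕ) (hd : Common (Out n) d) : Den (Out n) d
  /-- any group which embeds in the outer automorphism group of a free group of rank `n`, with any
  multiple of Minkowski's number for `n` -/
  | emb (G : Type) [Group G] (n d : ℕ) (f : G →* Out n) (hf : Function.Injective f)
      (hd : Minkowski n d) : Den G d
  /-- subgroups -/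
  | sub (G H : Type) [Group G] [Group H] (d : ℕ) (f : H →* G) (hf : Function.Injective f)
      (hG : Den G d) : Den H d
  /-- direct products -/
  | prod (G H : Type) [Group G] [Group H] (d e : ℕ) (hG : Den G d) (hH : Den H e) :
      Den (G × H) (d * e)
  /-- free products with free groups -/
  | free (G : Type) [Group G] (d m : ℕ) (hG : Den G d) :
      Den (Monoid.Coprod G (FreeGroup (Fin m))) d

open Pool.Agent.H371.SB in
theorem cr {G : Type} [Group G] {d : ℕ} (h : Den G d) : CR G d := by
  induction h with
  | out n d hd =>
    exact CR.of_local hd.1 (fun p hp => have : Fact p.Prime := ⟨hp⟩; cc_dvd_out p n d hd.2)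
      fun p _ => GR.out p n (MonoidHom.id _) fun _ _ h => h
  | emb G n d f hf hd =>
    exact CR.of_local hd.1 hd.2 fun p _ => GR.out p n f hf
  | sub G H d f hf hG ih => exact CR.sub f hf ih
  | prod G H d e hG hH ih ih' => exact CR.prod ih ih'
  | free G d m hG ih => exact CR.free m ih

/-- For every pair `(G, d)` of the class above and every matrix `A` over `ℂ[G]`, the number
`d * dim ker A` is an integer. -/
theorem result : ∀ (G : Type) [Group G] (d : ℕ), Den G d →
    ∀ (m n : ℕ) (A : Matrix (Fin m) (Fin n) (G →₀ ℂ)), ∃ z : ℤ, (d : ℝ) * kdim A = z := by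
  intro G _ d hG m n A
  exact (cr hG).kd_int m n A

end Pool.Agent.Results.MP_54e5d7_al.OutFree
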